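import Mathlib

set_option autoImplicit false

/-! # Edge cuts of vertex-transitive graphs -/

namespace Pool.Agent.Run7.H423.VT

open Finset

variable {V : Type} [Fintype V] [DecidableEq V] (G : SimpleGraph V) [DecidableRel G.Adj]

/-- the neighbours of `v` outside `X` -/
def out (X : Finset V) (v : V) : ℕ := (univ.filter (fun w => G.Adj v w ∧ w ∉ X)).card

/-- the neighbours of `v` in `X` -/
def inn (X : Finset V) (v : V) : ℕ := (univ.filter (fun w => G.Adj v w ∧ w ∈ X)).card

/-- the number of the edges with exactly one end in `X` -/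
def cut (X : Finset V) : ℕ := ∑ v ∈ X, out G X v

lemma cut_eq (X : Finset V) :
    cut G X = ∑ u, ∑ v, if G.Adj u v ∧ u ∈ X ∧ v ∉ X then 1 else 0 := by
  unfold cut out
  rw [← Finset.sum_filter_add_sum_filter_not univ (fun u => u ∈ X)]
  rw [Finset.sum_eq_zero (s := univ.filter (fun u => u ∉ X)), add_zero]
  · rw [Finset.filter_mem_eq_inter, Finset.univ_inter]
    refine Finset.sum_congr rfl fun u hu => ?_
    rw [Finset.card_filter]
    refine Finset.sum_congr rfl fun v _ => ?_
    simp [hu]
  · intro u hu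
    refine Finset.sum_eq_zero fun v _ => ?_
    simp [(Finset.mem_filter.mp hu).2]

lemma cut_compl (X : Finset V) : cut G Xᶜ = cut G X := by
  rw [cut_eq, cut_eq, Finset.sum_comm]
  refine Finset.sum_congr rfl fun u _ => Finset.sum_congr rfl fun v _ => ?_
  simp only [mem_compl, not_not, G.adj_comm v u]
  congr 1
  simp only [eq_iff_iff]
  tauto

lemma submod (X Y : Finset V) : cut G (X ∩ Y) + cut G (X ∪ Y) ≤ cut G X + cut G Y := by
  simp only [cut_eq, ← Finset.sum_add_distrib]
  refine Finset.sum_le_sum fun u _ => Finset.sum_le_sum fun v _ => ?_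
  by_cases h : G.Adj u v <;> by_cases h1 : u ∈ X <;> by_cases h2 : u ∈ Y <;>
    by_cases h3 : v ∈ X <;> by_cases h4 : v ∈ Y <;> simp [h, h1, h2, h3, h4]

lemma submod' (X Y : Finset V) : cut G (X \ Y) + cut G (Y \ X) ≤ cut G X + cut G Y := by
  have h := submod G X Yᶜ
  rw [cut_compl] at h
  have h1 : X ∩ Yᶜ = X \ Y := by ext; simp
  have h2 : X ∪ Yᶜ = (Y \ X)ᶜ := by
    ext
    simp only [mem_union, mem_compl, mem_sdiff]
    tauto
  rwa [h1, h2, cut_compl] at h

lemma cut_image (φ : G ≃g G) (X : Finset V) : cut G (X.image φ) = cut G X := by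
  rw [cut_eq, cut_eq, ← Equiv.sum_comp φ.toEquiv]
  refine Finset.sum_congr rfl fun u _ => ?_
  rw [← Equiv.sum_comp φ.toEquiv]
  refine Finset.sum_congr rfl fun v _ => ?_
  have hm : ∀ w, φ w ∈ X.image φ ↔ w ∈ X := fun w => by
    rw [Finset.mem_image]
    exact ⟨fun ⟨a, ha, h⟩ => φ.injective h ▸ ha, fun h => ⟨w, h, rfl⟩⟩
  have h1 : φ.toEquiv u = φ u := rfl
  have h2 : φ.toEquiv v = φ v := rfl
  rw [h1, h2]
  simp only [hm, φ.map_adj_iff]

lemma out_image (φ : G ≃g G) (X : Finset V) (v : V) : out G (X.image φ) (φ v) = out G X v := by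
  unfold out
  refine (Finset.card_bij (fun w _ => φ w) ?_ ?_ ?_).symm
  · intro w hw
    simp only [mem_filter, mem_univ, true_and] at hw ⊢
    refine ⟨φ.map_adj_iff.mpr hw.1, fun h => hw.2 ?_⟩
    obtain ⟨a, ha, h⟩ := Finset.mem_image.mp h
    exact φ.injective h ▸ ha
  · intro a _ b _ h
    exact φ.injective h
  · intro b hb
    simp only [mem_filter, mem_univ, true_and] at hb
    refine ⟨φ.symm b, ?_, by simp⟩
    simp only [mem_filter, mem_univ, true_and]
    refine ⟨?_, fun h => hb.2 (Finset.mem_image.mpr ⟨_, h, by simp⟩)⟩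
    rw [← φ.map_adj_iff]
    simpa using hb.1

lemma inn_add_out (X : Finset V) (v : V) : inn G X v + out G X v = G.degree v := by
  unfold inn out
  rw [← SimpleGraph.card_neighborFinset_eq_degree, SimpleGraph.neighborFinset_eq_filter]
  rw [← Finset.card_filter_add_card_filter_not (s := univ.filter (G.Adj v)) (fun w => w ∈ X),
    Finset.filter_filter, Finset.filter_filter]

lemma inn_lt (X : Finset V) (v : V) (hv : v ∈ X) : inn G X v + 1 ≤ X.card := by
  have h : (univ.filter (fun w => G.Adj v w ∧ w ∈ X)) ⊆ X.erase v := by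
    intro w hw
    simp only [mem_filter, mem_univ, true_and] at hw
    refine Finset.mem_erase.mpr ⟨?_, hw.2⟩
    rintro rfl
    exact G.irrefl hw.1
  have h1 := Finset.card_le_card h
  rw [Finset.card_erase_of_mem hv] at h1
  have h2 : 0 < X.card := Finset.card_pos.mpr ⟨v, hv⟩
  unfold inn
  omega

/-- a block of imprimitivity -/
def IsBlk (X : Finset V) : Prop := ∀ φ : G ≃g G, X.image φ = X ∨ Disjoint (X.image φ) X

lemma blk_out (hT : ∀ u v, ∃ φ : G ≃g G, φ u = v) (X : Finset V) (hX : IsBlk G X) (u v : V)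
    (hu : u ∈ X) (hv : v ∈ X) : out G X u = out G X v := by
  obtain ⟨φ, h⟩ := hT u v
  have h1 : X.image φ = X := by
    rcases hX φ with h1 | h1
    · exact h1
    · exfalso
      exact (Finset.disjoint_left.mp h1) (Finset.mem_image.mpr ⟨u, hu, h⟩) hv
  rw [← out_image G φ X u, h1, h]

lemma degree_const (hT : ∀ u v, ∃ φ : G ≃g G, φ u = v) (u v : V) : G.degree u = G.degree v := by
  obtain ⟨φ, h⟩ := hT u v
  have h1 := out_image G φ ∅ u
  have h2 : ∀ w, out G ∅ w = G.degree w := fun w => by
    rw [← inn_add_out G ∅ w]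
    simp [inn]
  rw [Finset.image_empty, h2, h2, h] at h1
  exact h1.symm

omit [DecidableRel G.Adj] in
lemma cut_pos (hG : G.Connected) (X : Finset V) (h1 : X.Nonempty) (h2 : X ≠ univ) :
    ∃ u ∈ X, ∃ v, v ∉ X ∧ G.Adj u v := by
  obtain ⟨a, ha⟩ := h1
  obtain ⟨b, hb⟩ : ∃ b, b ∉ X := by
    by_contra hcon
    push Not at hcon
    exact h2 (Finset.eq_univ_of_forall hcon)
  obtain ⟨p⟩ := hG.preconnected a b
  obtain ⟨d, _, hd1, hd2⟩ := p.exists_boundary_dart (X : Set V) (by simpa using ha)
    (by simpa using hb)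
  exact ⟨d.fst, by simpa using hd1, d.snd, by simpa using hd2, d.adj⟩

/-- the cut of a block -/
lemma blk_cut (hG : G.Connected) (hT : ∀ u v, ∃ φ : G ≃g G, φ u = v) (X : Finset V)
    (hX : IsBlk G X) (h1 : X.Nonempty) (h2 : X ≠ univ) (d : ℕ) (hd : ∀ v, G.degree v = d) :
    ∃ t, 1 ≤ t ∧ t ≤ d ∧ (∀ v ∈ X, out G X v = t) ∧ cut G X = X.card * t ∧ d + 1 ≤ X.card + t := by
  obtain ⟨u, hu, w, hw, huw⟩ := cut_pos G hG X h1 h2
  refine ⟨out G X u, ?_, ?_, fun v hv => blk_out G hT X hX v u hv hu, ?_, ?_⟩
  · exact Finset.card_pos.mpr ⟨w, by simp [hw, huw]⟩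
  · have := inn_add_out G X u
    rw [hd] at this
    omega
  · unfold cut
    rw [Finset.sum_congr rfl (fun v hv => blk_out G hT X hX v u hv hu), Finset.sum_const,
      smul_eq_mul]
  · have h3 := inn_add_out G X u
    have h4 := inn_lt G X u hu
    rw [hd] at h3
    omega

/-- all edge cuts of a connected vertex-transitive graph have at least `d` edges -/
theorem cut_ge (hG : G.Connected) (hT : ∀ u v, ∃ φ : G ≃g G, φ u = v) (d : ℕ)
    (hd : ∀ v, G.degree v = d) (X : Finset V) (h1 : X.Nonempty) (h2 : X ≠ univ) :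
    d ≤ cut G X := by
  classical
  -- a smallest cut, with a smallest side
  obtain ⟨Y, hY, hmin⟩ := Finset.exists_min_image
    ((univ : Finset (Finset V)).filter (fun Y => Y.Nonempty ∧ Y ≠ univ))
    (fun Y => cut G Y * (Fintype.card V + 1) + Y.card) ⟨X, by simp [h1, h2]⟩
  simp only [mem_filter, mem_univ, true_and] at hY hmin
  have hcardV : ∀ Z : Finset V, Z.card ≤ Fintype.card V := fun Z => Finset.card_le_univ Z
  have hmin1 : ∀ Z : Finset V, Z.Nonempty → Z ≠ univ → cut G Y ≤ cut G Z := by
    intro Z hZ1 hZ2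
    have h3 := hmin Z ⟨hZ1, hZ2⟩
    by_contra hcon
    push Not at hcon
    have h4 : (cut G Z + 1) * (Fintype.card V + 1) ≤ cut G Y * (Fintype.card V + 1) :=
      Nat.mul_le_mul_right _ hcon
    have := hcardV Z
    nlinarith
  have hmin2 : ∀ Z : Finset V, Z.Nonempty → Z ≠ univ → cut G Z = cut G Y → Y.card ≤ Z.card := by
    intro Z hZ1 hZ2 h4
    have h3 := hmin Z ⟨hZ1, hZ2⟩
    rw [h4] at h3
    omega
  have hYc : Y.card ≤ Yᶜ.card := by
    refine hmin2 Yᶜ ?_ ?_ (cut_compl G Y)
    · rw [Finset.nonempty_iff_ne_empty]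
      intro h
      exact hY.2 (by simpa using h)
    · intro h
      have h3 : Y = ∅ := by simpa using h
      exact hY.1.ne_empty h3
  have hYcc : Y.card + Yᶜ.card = Fintype.card V := Finset.card_add_card_compl Y
  have hblk : IsBlk G Y := by
    intro φ
    by_contra hcon
    push Not at hcon
    obtain ⟨hne, hnd⟩ := hcon
    have hcard : (Y.image φ).card = Y.card := Finset.card_image_of_injective _ φ.injective
    have hI : (Y.image φ ∩ Y).Nonempty := Finset.not_disjoint_iff_nonempty_inter.mp hnd
    have hIlt : (Y.image φ ∩ Y).card < Y.card := by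
      refine Finset.card_lt_card ⟨Finset.inter_subset_right, fun h => hne ?_⟩
      have h5 : Y ⊆ Y.image φ := fun a ha => (Finset.mem_inter.mp (h ha)).1
      exact (Finset.eq_of_subset_of_card_le h5 hcard.le).symm
    have hIu : Y.image φ ∩ Y ≠ univ := by
      intro h
      exact hY.2 (Finset.eq_univ_of_forall fun a =>
        (Finset.mem_inter.mp (h ▸ Finset.mem_univ a : a ∈ Y.image φ ∩ Y)).2)
    have hU : (Y.image φ ∪ Y).card + (Y.image φ ∩ Y).card = (Y.image φ).card + Y.card :=
      Finset.card_union_add_card_inter _ _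
    have hI0 := Finset.card_pos.mpr hI
    have hUu : Y.image φ ∪ Y ≠ univ := by
      intro h
      rw [h, Finset.card_univ] at hU
      omega
    have hUn : (Y.image φ ∪ Y).Nonempty := hY.1.mono Finset.subset_union_right
    have hsub := submod G (Y.image φ) Y
    rw [cut_image] at hsub
    have h6 := hmin1 _ hI hIu
    have h7 := hmin1 _ hUn hUu
    have h8 := hmin2 _ hI hIu (by omega)
    omega
  obtain ⟨t, ht1, htd, -, ht3, ht4⟩ := blk_cut G hG hT Y hblk hY.1 hY.2 d hd
  have h9 := hmin1 X h1 h2
  refine le_trans ?_ h9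
  rw [ht3]
  obtain ⟨a, rfl⟩ : ∃ a, d = t + a := ⟨d - t, by omega⟩
  have : a + 1 ≤ Y.card := by omega
  calc t + a ≤ (a + 1) * t := by nlinarith
    _ ≤ Y.card * t := Nat.mul_le_mul_right _ this

/-- a nontrivial 3-cut of a connected cubic vertex-transitive graph gives a triangle all of whose
vertices have a neighbour outside -/
theorem nontrivial_cut (hG : G.Connected) (hT : ∀ u v, ∃ φ : G ≃g G, φ u = v)
    (hd : ∀ v, G.degree v = 3) (X : Finset V) (h1 : 2 ≤ X.card) (h2 : 2 ≤ Xᶜ.card)
    (h3 : cut G X = 3) : ∃ T : Finset V, T.card = 3 ∧ ∀ v ∈ T, out G T v = 1 := by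
  classical
  obtain ⟨Y, hY, hmin⟩ := Finset.exists_min_image
    ((univ : Finset (Finset V)).filter (fun Y => 2 ≤ Y.card ∧ 2 ≤ Yᶜ.card ∧ cut G Y = 3))
    (fun Y => Y.card) ⟨X, by simp [h1, h2, h3]⟩
  simp only [mem_filter, mem_univ, true_and] at hY hmin
  obtain ⟨hY1, hY2, hY3⟩ := hY
  have hYc : Y.card ≤ Yᶜ.card := by
    refine hmin Yᶜ ⟨hY2, ?_, by rw [cut_compl, hY3]⟩
    rw [compl_compl]
    exact hY1
  have hYcc : Y.card + Yᶜ.card = Fintype.card V := Finset.card_add_card_compl Y
  have hge := cut_ge G hG hT 3 hd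
  -- two vertices do not have a cut with three edges
  have hpair : ∀ Z : Finset V, Z.card = 2 → cut G Z ≠ 3 := by
    intro Z hZ h
    obtain ⟨a, b, hab, rfl⟩ := Finset.card_eq_two.mp hZ
    have ha := inn_add_out G {a, b} a
    have hb := inn_add_out G {a, b} b
    rw [hd] at ha hb
    have hia : inn G {a, b} a = if G.Adj a b then 1 else 0 := by
      unfold inn
      split_ifs with h
      · rw [Finset.card_eq_one]
        refine ⟨b, ?_⟩
        ext w
        simp only [mem_filter, mem_univ, true_and, mem_insert, mem_singleton]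
        constructor
        · rintro ⟨h5, rfl | rfl⟩
          · exact absurd h5 (G.irrefl)
          · rfl
        · rintro rfl
          exact ⟨h, Or.inr rfl⟩
      · rw [Finset.card_eq_zero]
        ext w
        simp only [mem_filter, mem_univ, true_and, mem_insert, mem_singleton,
          notMem_empty, iff_false]
        rintro ⟨h5, rfl | rfl⟩
        · exact G.irrefl h5
        · exact h h5
    have hib : inn G {a, b} b = if G.Adj a b then 1 else 0 := by
      unfold inn
      split_ifs with h
      · rw [Finset.card_eq_one]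
        refine ⟨a, ?_⟩
        ext w
        simp only [mem_filter, mem_univ, true_and, mem_insert, mem_singleton]
        constructor
        · rintro ⟨h5, rfl | rfl⟩
          · rfl
          · exact absurd h5 (G.irrefl)
        · rintro rfl
          exact ⟨h.symm, Or.inl rfl⟩
      · rw [Finset.card_eq_zero]
        ext w
        simp only [mem_filter, mem_univ, true_and, mem_insert, mem_singleton,
          notMem_empty, iff_false]
        rintro ⟨h5, rfl | rfl⟩
        · exact h h5.symm
        · exact G.irrefl h5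
    unfold cut at h
    rw [Finset.sum_pair hab] at h
    rw [hia] at ha
    rw [hib] at hb
    split_ifs at ha hb <;> omega
  have hblk : IsBlk G Y := by
    intro φ
    by_contra hcon
    push Not at hcon
    obtain ⟨hne, hnd⟩ := hcon
    have hcard : (Y.image φ).card = Y.card := Finset.card_image_of_injective _ φ.injective
    have hI : (Y.image φ ∩ Y).Nonempty := Finset.not_disjoint_iff_nonempty_inter.mp hnd
    have hIlt : (Y.image φ ∩ Y).card < Y.card := by
      refine Finset.card_lt_card ⟨Finset.inter_subset_right, fun h => hne ?_⟩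
      have h5 : Y ⊆ Y.image φ := fun a ha => (Finset.mem_inter.mp (h ha)).1
      exact (Finset.eq_of_subset_of_card_le h5 hcard.le).symm
    have hU : (Y.image φ ∪ Y).card + (Y.image φ ∩ Y).card = (Y.image φ).card + Y.card :=
      Finset.card_union_add_card_inter _ _
    have hI0 := Finset.card_pos.mpr hI
    have hne_univ : ∀ Z : Finset V, Z.card < Fintype.card V → Z ≠ univ := by
      rintro Z hZ rfl
      rw [Finset.card_univ] at hZ
      omega
    have hUn : (Y.image φ ∪ Y).Nonempty :=
      (Finset.card_pos.mp (by omega : 0 < Y.card)).mono Finset.subset_union_right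
    have hsub := submod G (Y.image φ) Y
    rw [cut_image, hY3] at hsub
    have h6 := hge _ hI (hne_univ _ (by omega))
    have h7 := hge _ hUn (hne_univ _ (by omega))
    -- the intersection is a vertex
    have hIc := Finset.card_add_card_compl (Y.image φ ∩ Y)
    have hI1 : (Y.image φ ∩ Y).card = 1 := by
      by_contra hcon
      have := hmin (Y.image φ ∩ Y) ⟨by omega, by omega, by omega⟩
      omega
    -- the difference is a vertex
    have hD : (Y \ Y.image φ).card + (Y.image φ ∩ Y).card = Y.card := by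
      rw [Finset.inter_comm]
      exact Finset.card_sdiff_add_card_inter Y (Y.image φ)
    have hD' : (Y.image φ \ Y).card + (Y.image φ ∩ Y).card = (Y.image φ).card :=
      Finset.card_sdiff_add_card_inter (Y.image φ) Y
    have hsub' := submod' G (Y.image φ) Y
    rw [cut_image, hY3] at hsub'
    have hDn : (Y \ Y.image φ).Nonempty := Finset.card_pos.mp (by omega)
    have hDn' : (Y.image φ \ Y).Nonempty := Finset.card_pos.mp (by omega)
    have h8 := hge _ hDn (hne_univ _ (by omega))
    have h9 := hge _ hDn' (hne_univ _ (by omega))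
    have hDc := Finset.card_add_card_compl (Y \ Y.image φ)
    have hD1 : (Y \ Y.image φ).card = 1 := by
      by_contra hcon
      have := hmin (Y \ Y.image φ) ⟨by omega, by omega, by omega⟩
      omega
    exact hpair Y (by omega) hY3
  have hYn : Y.Nonempty := Finset.card_pos.mp (by omega)
  have hYu : Y ≠ univ := by
    rintro rfl
    simp at hY2
  obtain ⟨t, ht1, htd, ht2, ht3, ht4⟩ := blk_cut G hG hT Y hblk hYn hYu 3 hd
  rw [hY3] at ht3
  refine ⟨Y, ?_, ?_⟩
  · interval_cases t <;> omega
  · have : t = 1 := by interval_cases t <;> omega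
    rwa [this] at ht2

end Pool.Agent.Run7.H423.VT
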