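import Mathlib

set_option autoImplicit false

/-! # Maximal families of cycles with at most eleven new edges -/

namespace Pool.Agent.Run7.H423.VT

open Finset

variable {E : Type} [Fintype E] [DecidableEq E]

/-- the sets `C i` satisfy `P` and each has at most `k` elements outside the earlier ones -/
def Fam (P : Finset E → Prop) (k m : ℕ) (C : Fin m → Finset E) : Prop :=
  (∀ i, P (C i)) ∧
    ∀ i, (C i \ (Finset.univ.filter (fun j => j < i)).biUnion C).card ≤ k

omit [Fintype E] in
lemma fam_snoc (P : Finset E → Prop) (k m : ℕ) (C : Fin m → Finset E) (h : Fam P k m C)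
    (S : Finset E) (hS : P S) (hk : (S \ Finset.univ.biUnion C).card ≤ k) :
    ∃ C' : Fin (m + 1) → Finset E, Fam P k (m + 1) C' ∧
      Finset.univ.biUnion C ⊆ Finset.univ.biUnion C' ∧ S ⊆ Finset.univ.biUnion C' := by
  refine ⟨Fin.snoc (α := fun _ => Finset E) C S, ⟨?_, ?_⟩, ?_, ?_⟩
  · intro i
    refine Fin.lastCases ?_ (fun j => ?_) i
    · simpa using hS
    · simpa using h.1 j
  · intro i
    refine Fin.lastCases ?_ (fun j => ?_) i
    · rw [Fin.snoc_last]
      refine (Finset.card_le_card (Finset.sdiff_subset_sdiff (Finset.Subset.refl _) ?_)).trans hk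
      intro e he
      obtain ⟨j, _, hj⟩ := Finset.mem_biUnion.mp he
      refine Finset.mem_biUnion.mpr ⟨j.castSucc, ?_, ?_⟩
      · simp [Fin.castSucc_lt_last]
      · simpa using hj
    · rw [Fin.snoc_castSucc]
      refine (Finset.card_le_card (Finset.sdiff_subset_sdiff (Finset.Subset.refl _) ?_)).trans
        (h.2 j)
      intro e he
      obtain ⟨j', hj', hj⟩ := Finset.mem_biUnion.mp he
      refine Finset.mem_biUnion.mpr ⟨j'.castSucc, ?_, ?_⟩
      · simpa using (Finset.mem_filter.mp hj').2
      · simpa using hj
  · intro e he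
    obtain ⟨j, _, hj⟩ := Finset.mem_biUnion.mp he
    exact Finset.mem_biUnion.mpr ⟨j.castSucc, Finset.mem_univ _, by simpa using hj⟩
  · intro e he
    exact Finset.mem_biUnion.mpr ⟨Fin.last m, Finset.mem_univ _, by simpa using he⟩

/-- there is a family whose union contains all sets with at most `k` elements outside it -/
theorem exists_closed (P : Finset E → Prop) (k : ℕ) :
    ∃ (m : ℕ) (C : Fin m → Finset E), Fam P k m C ∧
      ∀ S, P S → (S \ Finset.univ.biUnion C).card ≤ k → S ⊆ Finset.univ.biUnion C := by
  have key : ∀ n m (C : Fin m → Finset E), Fam P k m C →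
      Fintype.card E - (Finset.univ.biUnion C).card ≤ n →
      ∃ (m : ℕ) (C : Fin m → Finset E), Fam P k m C ∧
        ∀ S, P S → (S \ Finset.univ.biUnion C).card ≤ k → S ⊆ Finset.univ.biUnion C := by
    intro n
    induction n with
    | zero =>
      intro m C hC hn
      refine ⟨m, C, hC, fun S _ _ => ?_⟩
      have h1 : Finset.univ.biUnion C = univ := by
        rw [← Finset.card_eq_iff_eq_univ]
        exact le_antisymm (Finset.card_le_univ _) (by omega)
      rw [h1]
      exact Finset.subset_univ _
    | succ n ih =>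
      intro m C hC hn
      by_cases h : ∀ S, P S → (S \ Finset.univ.biUnion C).card ≤ k → S ⊆ Finset.univ.biUnion C
      · exact ⟨m, C, hC, h⟩
      · push Not at h
        obtain ⟨S, hS, hk, hsub⟩ := h
        obtain ⟨C', hC', h1, h2⟩ := fam_snoc P k m C hC S hS hk
        refine ih (m + 1) C' hC' ?_
        have h3 : (Finset.univ.biUnion C).card < (Finset.univ.biUnion C').card :=
          Finset.card_lt_card ⟨h1, fun h4 => hsub (h2.trans h4)⟩
        have h4 : (Finset.univ.biUnion C').card ≤ Fintype.card E := Finset.card_le_univ _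
        omega
  exact key (Fintype.card E) 0 (fun i => i.elim0) ⟨fun i => i.elim0, fun i => i.elim0⟩
    (Nat.sub_le _ _)

end Pool.Agent.Run7.H423.VT
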