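import Mathlib

set_option autoImplicit false

/-! # Flows of walks -/

namespace Pool.Agent.Run7.H423.VT

open Finset

variable {V : Type} [DecidableEq V] {G : SimpleGraph V}

/-- the contribution of a step from `a` to `b` to an edge from `s` to `t` -/
def dz (s t a b : V) : ℤ := (if s = a ∧ t = b then 1 else 0) - (if s = b ∧ t = a then 1 else 0)

/-- the number of times the walk uses the edge from `s` to `t`, with sign -/
def wz (s t : V) {a b : V} (p : G.Walk a b) : ℤ := (p.darts.map (fun d => dz s t d.fst d.snd)).sum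

lemma wz_nil (s t a : V) : wz s t (SimpleGraph.Walk.nil : G.Walk a a) = 0 := rfl

lemma wz_cons (s t : V) {a b c : V} (h : G.Adj a b) (p : G.Walk b c) :
    wz s t (SimpleGraph.Walk.cons h p) = dz s t a b + wz s t p := by
  simp [wz]

lemma dz_zero (s t a b : V) (h : s(s, t) ≠ s(a, b)) : dz s t a b = 0 := by
  unfold dz
  have h1 : ¬ (s = a ∧ t = b) := fun ⟨h1, h2⟩ => h (by rw [h1, h2])
  have h2 : ¬ (s = b ∧ t = a) := fun ⟨h1, h2⟩ => h (by rw [h1, h2, Sym2.eq_swap])
  simp [h1, h2]

lemma dz_pm (s t a b : V) (hst : s ≠ t) (h : s(s, t) = s(a, b)) :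
    dz s t a b = 1 ∨ dz s t a b = -1 := by
  unfold dz
  rcases Sym2.eq_iff.mp h with ⟨h1, h2⟩ | ⟨h1, h2⟩
  · left
    subst h1 h2
    simp [hst]
  · right
    subst h1 h2
    simp [hst]

lemma wz_zero (s t : V) {a b : V} (p : G.Walk a b) (h : s(s, t) ∉ p.edges) : wz s t p = 0 := by
  induction p with
  | nil => rfl
  | cons h1 p ih =>
    rw [SimpleGraph.Walk.edges_cons, List.mem_cons, not_or] at h
    rw [wz_cons, dz_zero _ _ _ _ h.1, ih h.2, zero_add]

lemma wz_pm (s t : V) (hst : s ≠ t) {a b : V} (p : G.Walk a b) (hp : p.edges.Nodup)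
    (h : s(s, t) ∈ p.edges) : wz s t p = 1 ∨ wz s t p = -1 := by
  induction p with
  | nil => simp at h
  | cons h1 p ih =>
    rw [SimpleGraph.Walk.edges_cons, List.nodup_cons] at hp
    rw [SimpleGraph.Walk.edges_cons, List.mem_cons] at h
    rw [wz_cons]
    by_cases h2 : s(s, t) ∈ p.edges
    · have h3 : s(s, t) ≠ s(_, _) := fun h3 => hp.1 (h3 ▸ h2)
      rw [dz_zero _ _ _ _ h3, zero_add]
      exact ih hp.2 h2
    · rw [wz_zero s t p h2, add_zero]
      exact dz_pm s t _ _ hst (h.resolve_right h2)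

lemma kirchhoff [Fintype G.edgeSet] (src dst : G.edgeSet → V)
    (ho : ∀ e : G.edgeSet, s(src e, dst e) = (e : Sym2 V)) {a b : V} (p : G.Walk a b) (x : V) :
    ∑ e : G.edgeSet, wz (src e) (dst e) p * ((if src e = x then 1 else 0)
      - (if dst e = x then 1 else 0)) = (if a = x then 1 else 0) - (if b = x then 1 else 0) := by
  induction p with
  | nil => simp [wz_nil]
  | @cons a b c h p ih =>
    simp only [wz_cons, add_mul, Finset.sum_add_distrib]
    rw [ih]
    have h1 : ∑ e : G.edgeSet, dz (src e) (dst e) a b * ((if src e = x then 1 else 0)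
        - (if dst e = x then 1 else 0)) = (if a = x then 1 else 0) - (if b = x then 1 else 0) := by
      rw [Finset.sum_eq_single (⟨s(a, b), h⟩ : G.edgeSet)]
      · have h2 := ho ⟨s(a, b), h⟩
        have hab : a ≠ b := h.ne
        rcases Sym2.eq_iff.mp h2 with ⟨h3, h4⟩ | ⟨h3, h4⟩
        · rw [h3, h4]
          simp [dz, hab]
        · rw [h3, h4]
          simp [dz, hab]
      · intro e _ he
        rw [dz_zero _ _ _ _ ?_, zero_mul]
        rw [ho e]
        intro h2
        exact he (Subtype.ext h2)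
      · intro h2
        exact absurd (Finset.mem_univ _) h2
    rw [h1]
    ring

end Pool.Agent.Run7.H423.VT
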